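import Mathlib
import Pool.Agent.H29.SPL.PUCDefs

/-!
# Perfectoid universal covers of curves: the notion of isomorphism, in two steps
-/

universe u v

namespace PUC2

open PUC

/-- A bijection of the `K`-places of `E₁` and `E₂` that is analytic in both directions. -/
def AnIso (K : Type u) (E₁ E₂ : Type v) [NormedField K] [Field E₁] [Field E₂] [Algebra K E₁]
    [Algebra K E₂] : Prop :=
  ∃ φ : Place K E₁ ≃ Place K E₂,
    (∀ f : E₂, AnF (fun P => φ P) f) ∧ (∀ f : E₁, AnF (fun P => φ.symm P) f)

/-- The universal covers of the curves with function fields `F₁` and `F₂` are isomorphic (in the weak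
sense that there is a bijection of `K`-points that is analytic in both directions; every isomorphism
of perfectoid spaces over `K` induces one). -/
def UCIso (K : Type u) (F₁ F₂ : Type v) [NormedField K] [Field F₁] [Field F₂] [Algebra K F₁]
    [Algebra K F₂] : Prop :=
  AnIso K (UC K F₁) (UC K F₂)

end PUC2
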