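import Pool.Agent.H77.PUC2.Defs
import Pool.Agent.H29.SPL.NotLocallyConstantProof
import Pool.Agent.H29.SPL.SameReductionProof

universe u

namespace PUC2

open PUC

theorem nlc (K : Type u) [NontriviallyNormedField K] [IsUltrametricDist K] [CompleteSpace K]
    [IsAlgClosed K] [CharZero K] (p : ℕ) (hp : p.Prime) (hpK : ‖(p : K)‖ < 1)
    (g : ℕ) (hg : 2 ≤ g) :
    ∃ s₀ : K,
      (∀ s : K, ‖s - s₀‖ < 1 → SmoothCharts K g s) ∧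
      (∀ δ : ℝ, 0 < δ → ∃ s : K, ‖s - s₀‖ < δ ∧ Transcendental ℚ s) ∧
      (∀ s : K, ∃ (F : Type u) (_ : Field F) (_ : Algebra K F) (x y : F), IsCurve g s F x y) ∧
      (∀ s : K, ‖s - s₀‖ < 1 → Transcendental ℚ s →
        ∀ (F₀ F : Type u) [Field F₀] [Algebra K F₀] [Field F] [Algebra K F] (x₀ y₀ : F₀) (x y : F),
          IsCurve g s₀ F₀ x₀ y₀ → IsCurve g s F x y → ¬ UCIso K F₀ F) := by
  obtain ⟨s₀, h1, h2, h3, h4⟩ :=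
    Pool.Agent.Results.MP_43c69f_ag.NotLocallyConstant.result_proof K p hp hpK g hg
  exact ⟨s₀, h1, h2, h3, fun s hs ht F₀ F _ _ _ _ x₀ y₀ x y a b =>
    h4 s hs ht F₀ F x₀ y₀ x y a b⟩

open scoped PadicComplex in
theorem sred (p : ℕ) [Fact p.Prime] (g : ℕ) (hg : 2 ≤ g) :
    ∃ s t : 𝓞_ℂ_[p],
      SmoothCharts ℂ_[p] g (s : ℂ_[p]) ∧ SmoothCharts ℂ_[p] g (t : ℂ_[p]) ∧
      IsLocalRing.residue 𝓞_ℂ_[p] s = IsLocalRing.residue 𝓞_ℂ_[p] t ∧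
      SmoothCharts (IsLocalRing.ResidueField 𝓞_ℂ_[p]) g (IsLocalRing.residue 𝓞_ℂ_[p] s) ∧
      (∃ (F : Type) (_ : Field F) (_ : Algebra ℂ_[p] F) (x y : F), IsCurve g (s : ℂ_[p]) F x y) ∧
      (∃ (F : Type) (_ : Field F) (_ : Algebra ℂ_[p] F) (x y : F), IsCurve g (t : ℂ_[p]) F x y) ∧
      ∀ (F₁ F₂ : Type) [Field F₁] [Algebra ℂ_[p] F₁] [Field F₂] [Algebra ℂ_[p] F₂]
        (x₁ y₁ : F₁) (x₂ y₂ : F₂), IsCurve g (s : ℂ_[p]) F₁ x₁ y₁ →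
          IsCurve g (t : ℂ_[p]) F₂ x₂ y₂ → ¬ UCIso ℂ_[p] F₁ F₂ := by
  obtain ⟨s, t, h1, h2, h3, h4, h5, h6, h7⟩ :=
    Pool.Agent.Results.MP_43c69f_ag.SameReduction.result_proof p g hg
  exact ⟨s, t, h1, h2, h3, h4, h5, h6, fun F₁ F₂ _ _ _ _ x₁ y₁ x₂ y₂ a b =>
    h7 F₁ F₂ x₁ y₁ x₂ y₂ a b⟩

end PUC2
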